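import Mathlib

/-!
# Squad EDG (MP_74088a_nt): the degree of every factor of every Gleason polynomial is exponential

Definitions and their basic lemmas (all proved).  Paper proof: note 3600 of the team database.

The parameter is the fixed point `X` (`c = X - X ^ 2`), the variable is `y = x - X`, and the map is
`F(y) = y ^ 2 + 2 X y`.  A polynomial in `X` and `y` is an element of `ℤ[X][X]`; the OUTER variable is `y`,
the inner one is `X`.
-/

set_option autoImplicit false

namespace Pool.Agent.EDG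

open Polynomial Finset

/-- `F = y ^ 2 + 2 X y`. -/
noncomputable def F : ℤ[X][X] := X ^ 2 + C (2 * X) * X

/-- the `k`-th iterate of `F` (as a polynomial in `X`, `y`). -/
noncomputable def Fit : ℕ → ℤ[X][X]
  | 0 => X
  | k + 1 => (Fit k).comp F

/-- the orbit of `y` under `y ↦ y ^ 2 + 2 b y`. -/
def it {R : Type*} [CommRing R] (b y : R) : ℕ → R
  | 0 => y
  | i + 1 => it b y i ^ 2 + 2 * b * it b y i

/-- evaluation at `X = b`, outer variable `= y`. -/
noncomputable def ev {R : Type*} [CommRing R] (b y : R) : ℤ[X][X] →+* R :=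
  eval₂RingHom (eval₂RingHom (Int.castRingHom R) b) y

/-- the point `y_i` of the critical orbit (`y_0 = -X`) as a polynomial in `X`. -/
noncomputable def Yp (i : ℕ) : ℤ[X] := it (X : ℤ[X]) (-X) i

/-- the products `h_e`: `h_0 = 1`, `h_(2k) = h_k ∘ F`, `h_(2k+1) = y * (h_k ∘ F)`. -/
noncomputable def h : ℕ → ℤ[X][X]
  | 0 => 1
  | e + 1 => if (e + 1) % 2 = 0 then (h ((e + 1) / 2)).comp F else X * (h ((e + 1) / 2)).comp F
decreasing_by all_goals omega

/-- `Q_j(X) = h_j(X, -X)`, of degree `j` with leading coefficient `1` or `-1`. -/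
noncomputable def Q (j : ℕ) : ℤ[X] := ev (X : ℤ[X]) (-X) (h j)

/-- `g` is the minimal polynomial (over `ℤ`) of a parameter `X` for which the critical point
`y_0 = -X` has exact period `n`. -/
structure Cyc (n : ℕ) (g : ℤ[X]) : Prop where
  npos : 0 < n
  monic : g.Monic
  irr : Irreducible g
  per : g ∣ Yp n - Yp 0
  ex : ∀ i, 0 < i → i < n → ¬ g ∣ Yp i - Yp 0

/-- reduction modulo `2`. -/
noncomputable def red2 : ℤ[X][X] →+* (ZMod 2)[X][X] :=
  mapRingHom (mapRingHom (Int.castRingHom (ZMod 2)))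

/-- the degree in `X` of a polynomial modulo `2`. -/
noncomputable def dX (q : (ZMod 2)[X][X]) : ℕ := (Bivariate.swap q).natDegree

open Classical in
/-- the indices `i < n` with `ψ(β, y_i) = 0` (`β` a root of `g`). -/
noncomputable def Vn (n : ℕ) (g : ℤ[X]) (ψ : ℤ[X][X]) : Finset ℕ :=
  (range n).filter fun i => g ∣ ev (X : ℤ[X]) (Yp i) ψ

/-- the filtration `𝓕(N, d)`: combinations of `h_0, ..., h_(N-1)` with coefficients in `ℤ[X]` of
degree `< d`. -/
def InF (N d : ℕ) (p : ℤ[X][X]) : Prop :=
  ∃ P : ℕ → ℤ[X], (∀ e, (P e).degree < (d : WithBot ℕ)) ∧ p = ∑ e ∈ range N, C (P e) * h e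

/-! ### evaluation -/

section ev

variable {R S : Type*} [CommRing R] [CommRing S]

@[simp] theorem ev_X (b y : R) : ev b y (X : ℤ[X][X]) = y := by simp [ev]

@[simp] theorem ev_C (b y : R) (p : ℤ[X]) : ev b y (C p) = aeval b p := by
  simp [ev, aeval_def]

@[simp] theorem ev_F (b y : R) : ev b y F = y ^ 2 + 2 * b * y := by
  simp [F, map_ofNat]

theorem ev_comp (b y : R) (p q : ℤ[X][X]) : ev b y (p.comp q) = ev b (ev b y q) p := by
  simp only [ev, coe_eval₂RingHom]
  rw [eval₂_comp]

theorem ev_comp_F (b y : R) (p : ℤ[X][X]) : ev b y (p.comp F) = ev b (y ^ 2 + 2 * b * y) p := by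
  rw [ev_comp, ev_F]

theorem ev_map (f : R →+* S) (b y : R) (p : ℤ[X][X]) : f (ev b y p) = ev (f b) (f y) p := by
  have : f.comp (ev b y) = ev (f b) (f y) := by
    apply Polynomial.ringHom_ext'
    · apply Polynomial.ringHom_ext'
      · exact RingHom.ext_int _ _
      · simp
    · simp
  exact congrArg (fun φ => φ p) this

theorem it_zero (b y : R) : it b y 0 = y := rfl

theorem it_succ (b y : R) (i : ℕ) : it b y (i + 1) = it b y i ^ 2 + 2 * b * it b y i := rfl

theorem it_succ' (b y : R) (i : ℕ) : it b y (i + 1) = it b (y ^ 2 + 2 * b * y) i := by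
  induction i with
  | zero => rfl
  | succ i ih => rw [it_succ, ih, ← it_succ]

theorem it_add (b y : R) (i j : ℕ) : it b y (i + j) = it b (it b y i) j := by
  induction j with
  | zero => rfl
  | succ j ih => rw [← add_assoc, it_succ, ih, ← it_succ]

theorem it_map (f : R →+* S) (b y : R) (i : ℕ) : f (it b y i) = it (f b) (f y) i := by
  induction i with
  | zero => rfl
  | succ i ih => simp [it_succ, ih, map_ofNat]

theorem ev_Fit (b y : R) (k : ℕ) : ev b y (Fit k) = it b y k := by
  induction k generalizing y with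
  | zero => simp [Fit, it_zero]
  | succ k ih => rw [Fit, ev_comp_F, ih, ← it_succ']

theorem aeval_Yp (b : R) (i : ℕ) : aeval b (Yp i) = it b (-b) i := by
  have := it_map (aeval b : ℤ[X] →ₐ[ℤ] R).toRingHom (X : ℤ[X]) (-X) i
  simpa [Yp] using this

/-- evaluation at a root `b` of the value at `(X, q(X))`. -/
theorem aeval_ev (b : R) (q : ℤ[X]) (p : ℤ[X][X]) :
    aeval b (ev (X : ℤ[X]) q p) = ev b (aeval b q) p := by
  have := ev_map (aeval b : ℤ[X] →ₐ[ℤ] R).toRingHom (X : ℤ[X]) q p
  simpa using this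

theorem Yp_zero : Yp 0 = -X := rfl

theorem Yp_succ (i : ℕ) : Yp (i + 1) = Yp i ^ 2 + 2 * X * Yp i := rfl

theorem ev_comp_F_Yp (i : ℕ) (p : ℤ[X][X]) :
    ev (X : ℤ[X]) (Yp i) (p.comp F) = ev (X : ℤ[X]) (Yp (i + 1)) p := by
  rw [ev_comp_F, Yp_succ]

end ev

/-! ### `h` -/

theorem h_zero : h 0 = 1 := by simp [h]

theorem h_two_mul (k : ℕ) : h (2 * k) = (h k).comp F := by
  cases k with
  | zero => simp [h]
  | succ k =>
    rw [show 2 * (k + 1) = (2 * k + 1) + 1 by ring, h]
    have h1 : (2 * k + 1 + 1) % 2 = 0 := by omega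
    have h2 : (2 * k + 1 + 1) / 2 = k + 1 := by omega
    rw [if_pos h1, h2]

theorem h_two_mul_add_one (k : ℕ) : h (2 * k + 1) = X * (h k).comp F := by
  rw [h]
  have h1 : ¬ (2 * k + 1) % 2 = 0 := by omega
  have h2 : (2 * k + 1) / 2 = k := by omega
  rw [if_neg h1, h2]

theorem h_one : h 1 = X := by
  have := h_two_mul_add_one 0
  simpa [h_zero] using this

theorem F_natDegree : F.natDegree = 2 := by
  unfold F
  compute_degree!

theorem F_monic : F.Monic := by
  unfold F
  monicity!

theorem h_monic_natDegree (e : ℕ) : (h e).Monic ∧ (h e).natDegree = e := by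
  induction e using Nat.strong_induction_on with
  | _ e ih =>
    rcases Nat.even_or_odd' e with ⟨k, hk | hk⟩
    · rcases Nat.eq_zero_or_pos k with h0 | h0
      · subst h0; subst hk; simp [h_zero]
      · obtain ⟨h1, h2⟩ := ih k (by omega)
        rw [hk, h_two_mul]
        refine ⟨h1.comp F_monic (by rw [F_natDegree]; norm_num), ?_⟩
        rw [natDegree_comp, h2, F_natDegree]; ring
    · obtain ⟨h1, h2⟩ := ih k (by omega)
      rw [hk, h_two_mul_add_one]
      have h3 : ((h k).comp F).Monic := h1.comp F_monic (by rw [F_natDegree]; norm_num)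
      refine ⟨monic_X.mul h3, ?_⟩
      rw [monic_X.natDegree_mul h3, natDegree_comp, h2, F_natDegree, natDegree_X]; ring

theorem h_monic (e : ℕ) : (h e).Monic := (h_monic_natDegree e).1

theorem h_natDegree (e : ℕ) : (h e).natDegree = e := (h_monic_natDegree e).2

/-! ### the filtration -/

theorem InF.mono {N N' d d' : ℕ} {p : ℤ[X][X]} (hp : InF N d p) (hN : N ≤ N') (hd : d ≤ d') :
    InF N' d' p := by
  obtain ⟨P, h1, h2⟩ := hp
  refine ⟨fun e => if e < N then P e else 0, fun e => ?_, ?_⟩
  · by_cases he : e < N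
    · simp only [if_pos he]
      exact lt_of_lt_of_le (h1 e) (by exact_mod_cast hd)
    · simp only [if_neg he, degree_zero]
      exact WithBot.bot_lt_coe _
  · rw [h2]
    have h3 : range N ⊆ range N' := range_subset_range.mpr hN
    rw [← sum_subset h3]
    · apply sum_congr rfl
      intro e he
      have he' : e < N := mem_range.mp he
      simp only [if_pos he']
    · intro e _ he
      have he' : ¬ e < N := by simpa using he
      simp [if_neg he']

theorem InF.add {N d : ℕ} {p q : ℤ[X][X]} (hp : InF N d p) (hq : InF N d q) : InF N d (p + q) := by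
  obtain ⟨P, h1, h2⟩ := hp
  obtain ⟨P', h3, h4⟩ := hq
  refine ⟨fun e => P e + P' e, fun e => lt_of_le_of_lt (degree_add_le _ _) (max_lt (h1 e) (h3 e)), ?_⟩
  rw [h2, h4, ← sum_add_distrib]
  apply sum_congr rfl
  intro e _
  rw [C_add]; ring

theorem InF.zero (N d : ℕ) : InF N d 0 :=
  ⟨fun _ => 0, fun _ => by rw [degree_zero]; exact WithBot.bot_lt_coe _, by simp⟩

theorem InF.sum {ι : Type*} {N d : ℕ} (s : Finset ι) (f : ι → ℤ[X][X]) (hf : ∀ i ∈ s, InF N d (f i)) :
    InF N d (∑ i ∈ s, f i) := by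
  classical
  induction s using Finset.induction_on with
  | empty => simpa using InF.zero N d
  | insert a s ha ih =>
    rw [sum_insert ha]
    exact (hf a (mem_insert_self a s)).add (ih fun i hi => hf i (mem_insert_of_mem hi))

/-- multiplication by a polynomial of degree `< d'` in `X`. -/
theorem InF.mulC {N d d' : ℕ} {p : ℤ[X][X]} (hp : InF N d p) (q : ℤ[X])
    (hq : q.degree < (d' : WithBot ℕ)) : InF N (d' + d - 1) (C q * p) := by
  obtain ⟨P, h1, h2⟩ := hp
  refine ⟨fun e => q * P e, fun e => ?_, ?_⟩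
  · show (q * P e).degree < ((d' + d - 1 : ℕ) : WithBot ℕ)
    by_cases hq0 : q = 0
    · rw [hq0, zero_mul, degree_zero]; exact WithBot.bot_lt_coe _
    by_cases hP : P e = 0
    · rw [hP, mul_zero, degree_zero]; exact WithBot.bot_lt_coe _
    rw [degree_eq_natDegree (mul_ne_zero hq0 hP), natDegree_mul hq0 hP]
    have h3 : q.natDegree < d' := by
      rw [degree_eq_natDegree hq0] at hq; exact_mod_cast hq
    have h4 : (P e).natDegree < d := by
      have := h1 e
      rw [degree_eq_natDegree hP] at this; exact_mod_cast this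
    exact_mod_cast (by omega : q.natDegree + (P e).natDegree < d' + d - 1)
  · rw [h2, mul_sum]
    apply sum_congr rfl
    intro e _
    rw [C_mul]; ring

theorem InF_h (k : ℕ) : InF (k + 1) 1 (h k) := by
  refine ⟨fun e => if e = k then 1 else 0, fun e => ?_, ?_⟩
  · by_cases he : e = k
    · simp only [if_pos he, degree_one]; norm_num
    · simp only [if_neg he, degree_zero]; exact WithBot.bot_lt_coe _
  · rw [sum_eq_single k]
    · simp
    · intro e _ he; simp [he]
    · intro hk; simp at hk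

theorem InF.comp_F {N d : ℕ} {p : ℤ[X][X]} (hp : InF N d p) : InF (2 * N) d (p.comp F) := by
  obtain ⟨P, h1, h2⟩ := hp
  have key : p.comp F = ∑ e ∈ range N, C (P e) * h (2 * e) := by
    rw [h2, ← coe_compRingHom_apply, map_sum]
    apply sum_congr rfl
    intro e _
    rw [map_mul, coe_compRingHom_apply, coe_compRingHom_apply, C_comp, h_two_mul]
  rw [key]
  apply InF.sum
  intro e he
  have := ((InF_h (2 * e)).mulC (P e) (h1 e)).mono (N' := 2 * N) (d' := d)
    (by have := mem_range.mp he; omega) (by omega)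
  exact this

/-- `y * (p ∘ F)`: only odd indices. -/
theorem InF.X_mul_comp_F {N d : ℕ} {p : ℤ[X][X]} (hp : InF N d p) :
    InF (2 * N) d (X * p.comp F) := by
  obtain ⟨P, h1, h2⟩ := hp
  have key : X * p.comp F = ∑ e ∈ range N, C (P e) * h (2 * e + 1) := by
    rw [h2, ← coe_compRingHom_apply, map_sum, mul_sum]
    apply sum_congr rfl
    intro e _
    rw [map_mul, coe_compRingHom_apply, coe_compRingHom_apply, C_comp, h_two_mul_add_one]
    ring
  rw [key]
  apply InF.sum
  intro e he
  have := ((InF_h (2 * e + 1)).mulC (P e) (h1 e)).mono (N' := 2 * N) (d' := d)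
    (by have := mem_range.mp he; omega) (by omega)
  exact this

/-! ### `Vn`, `Cyc` -/

theorem mem_Vn {n : ℕ} {g : ℤ[X]} {ψ : ℤ[X][X]} {i : ℕ} :
    i ∈ Vn n g ψ ↔ i < n ∧ g ∣ ev (X : ℤ[X]) (Yp i) ψ := by
  simp [Vn]

theorem Cyc.prime {n : ℕ} {g : ℤ[X]} (hc : Cyc n g) : Prime g := hc.irr.prime

theorem Cyc.natDegree_pos {n : ℕ} {g : ℤ[X]} (hc : Cyc n g) : 0 < g.natDegree := by
  rcases Nat.eq_zero_or_pos g.natDegree with h0 | h0
  · exact absurd (by rw [hc.monic.natDegree_eq_zero.mp h0]; exact isUnit_one) hc.irr.not_isUnit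
  · exact h0

end Pool.Agent.EDG
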