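import Pool.Agent.EDG.Defs

/-!
# Squad EDG, statements of blocks (1) - (5)

One statement per row.  Notation of the comments: `D = g.natDegree`, `b` or `β` is a root of `g` in some
ring, `y_i = it b (-b) i` (so `y_n = y_0`).  All hints are complete proofs.
-/

set_option autoImplicit false

namespace Pool.Agent.EDG

open Polynomial Finset

/-! ### Set up, sizes, reduction modulo 2 -/

/-- **SET.** A parameter `c` of exact period `n` gives `g` with `Cyc n g`, of degree at most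
`2 [ℚ(c) : ℚ]`.
Proof.  Choose `b` with `b ^ 2 - b + c = 0`; `x = y + b` conjugates `x ^ 2 + c` to `y ^ 2 + 2 b y`, so
`it b (-b) i + b = f^i(0)`.  `Yp n - Yp 0 = Yp n + X` has degree `2 ^ n` and leading coefficient `1` or
`-1` (`n ≥ 1`), so `b` is integral over `ℤ`; `g := minpoly ℤ b` (monic, irreducible, and
`g ∣ p ↔ aeval b p = 0`: `minpoly.isIntegrallyClosed_dvd_iff`).  Its degree is
`[ℚ(b) : ℚ] ≤ 2 [ℚ(c) : ℚ]`, because `c ∈ ℚ(b)` and `b` is quadratic over `ℚ(c)`. -/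
def SetStmt : Prop :=
  ∀ (n : ℕ) (c : ℂ), 0 < n → Function.minimalPeriod (fun z : ℂ => z ^ 2 + c) 0 = n →
    ∃ g : ℤ[X], Cyc n g ∧ g.natDegree ≤ 2 * (minpoly ℚ c).natDegree

/-- **BND.** Sizes.  Proof.  `x_i = y_i + b`, `c = b - b ^ 2`, `x_0 = 0`, `x_(i+1) = x_i ^ 2 + c`,
`x_n = 0`.  `‖c‖ ≤ 2` (otherwise the orbit of `0` escapes: `‖x_i‖ ≥ ‖c‖ > 2` and `‖x_(i+1)‖ > ‖x_i‖` for
`i ≥ 1`), `‖x_i‖ ≤ 2` (otherwise the norms increase strictly for ever, but the orbit is periodic),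
`‖b‖ ^ 2 ≤ ‖b‖ + 2`, so `‖b‖ ≤ 2`, `‖y_i‖ ≤ 4`. -/
def BndStmt : Prop :=
  ∀ (n : ℕ) (g : ℤ[X]), Cyc n g → ∀ b : ℂ, aeval b g = 0 →
    ‖b‖ ≤ 2 ∧ ∀ i, ‖it b (-b) i‖ ≤ 4

/-- **MOA.** Modulo `2` the point has exact degree `n`.
Proof.  In `k`: `it θ (-θ) i = θ ^ (2 ^ i)`; `g ∣ Yp n - Yp 0` gives the first part.  Let
`R = ℤ[X] / (g)` (a domain, `g` is prime), `β` the class of `X`, `y_i = it β (-β) i`; suppose
`θ ^ (2 ^ l) = θ` and let `δ = y_l - y_0 ≠ 0` (`g` does not divide `Yp l - Yp 0`).  From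
`F(a) - F(a') = (a - a')(a + a' + 2β)`: `y_(l+n) - y_n = (y_l - y_0) ∏_(j<n) (y_(l+j) + y_j + 2β)`, and
`y_(l+n) = y_l`, `y_n = y_0`.  So the product is `1` in `R`; but its image in `k` under `β ↦ θ` is `0`. -/
def MoaStmt : Prop :=
  ∀ (n : ℕ) (g : ℤ[X]), Cyc n g → ∀ (k : Type) [Field k] [CharP k 2] (θ : k), aeval θ g = 0 →
    θ ^ (2 ^ n) = θ ∧ ∀ l, 0 < l → l < n → θ ^ (2 ^ l) ≠ θ

/-- **MOB.** Proof.  `g` divides `Yp n - Yp 0`, which is `X ^ (2 ^ n) + X` modulo `2`, of derivative `1`: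
separable.  Take a root `θ` of `g` in `AlgebraicClosure (ZMod 2)` (degree of `g` is positive); by MOA
the `θ ^ (2 ^ i)`, `i < n`, are `n` distinct roots of `g` modulo `2`. -/
def MobStmt : Prop :=
  MoaStmt → ∀ (n : ℕ) (g : ℤ[X]), Cyc n g →
    (g.map (Int.castRingHom (ZMod 2))).Separable ∧ n ≤ g.natDegree

/-! ### The relation -/

/-- **CNG.** `y_i ≡ F^s(β^(2^(M+i))) mod 2^s`.
Proof.  `M + s ≡ 0 mod n`, `M ≥ s` (`M = (2 n - 1) s`).  `y_j ≡ β ^ (2 ^ j) mod 2`.  If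
`a ≡ a' mod 2 ^ t`, `t ≥ 1`, then `F(a) - F(a') = (a - a')(2 a' + 2 β + (a - a')) ≡ 0 mod 2 ^ (t+1)`.  So
`F^s(y_(M+i)) ≡ F^s(β ^ (2 ^ (M+i))) mod 2 ^ (s+1)` and `F^s(y_(M+i)) = y_(M+i+s) = y_i`
(`y_(i+n) = y_i` because `y_n = y_0`). -/
def CngStmt : Prop :=
  ∀ (n : ℕ) (g : ℤ[X]), Cyc n g → ∀ s : ℕ, ∃ M : ℕ, s ≤ M ∧
    ∀ (R : Type) [CommRing R] (b : R), aeval b g = 0 → ∀ i : ℕ, ∃ r : R,
      it b (-b) i = it b (b ^ (2 ^ (M + i))) s + 2 ^ s * r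

/-- **GRF.** Graeffe.
Proof.  For `G` monic of degree `D` let `Γ(G)` be the monic polynomial with
`Γ(G)(X ^ 2) = ± G(X) G(-X)` (if `G = A(X^2) + X B(X^2)`: `Γ(G) = ±(A ^ 2 - X B ^ 2)`).  If
`G(b) = 0` then `Γ(G)(b ^ 2) = 0`.  `Γ(G) ≡ G mod 2`, and `G ≡ H mod 2 ^ k` (`k ≥ 1`) implies
`Γ(G) ≡ Γ(H) mod 2 ^ (k+1)`.  So `Γ^(j+1)(g) ≡ Γ^j(g) mod 2 ^ (j+1)`, and `Γ^(M+i)(g) ≡ Γ^M(g)
mod 2 ^ (M+1)`; take `G = Γ^M(g)`. -/
def GrfStmt : Prop :=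
  ∀ g : ℤ[X], g.Monic → ∀ M : ℕ, ∃ G : ℤ[X], G.Monic ∧ G.natDegree = g.natDegree ∧
    ∀ (R : Type) [CommRing R] (b : R), aeval b g = 0 → ∀ i : ℕ, ∃ r : R,
      aeval (b ^ (2 ^ (M + i))) G = 2 ^ M * r

/-- **EXP.** Expansion in powers of `2 X`.
Proof.  `h N` is a polynomial in `2 X` and `y`: `ev b t (h N) = ∑_k (2 b) ^ k w_k(t)` with `w_k ∈ ℤ[X]`
(induction along the recursion of `h`, or define the analogue of `h` for `y ^ 2 + L y`), and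
`2 ^ j p(X) = ∑_(i≤j) 2 ^ (j-i) p_i (2 X) ^ i`.  So the product is `∑_l (2 b) ^ l V_l(t)`; the terms with
`l ≥ s` are divisible by `2 ^ s`. -/
def ExpStmt : Prop :=
  ∀ (s j : ℕ) (p : ℤ[X]) (N : ℕ), p.natDegree ≤ j → ∃ V : ℕ → ℤ[X],
    ∀ (R : Type) [CommRing R] (b t : R), ∃ r : R,
      2 ^ j * aeval b p * ev b t (h N) =
        ∑ l ∈ range s, (2 * b) ^ l * aeval t (V l) + 2 ^ s * r

/-- The polynomial `Θ_a = ∑_(j<m, e<E) 2 ^ j a_(je) Q_j(X) h_e(X, y)`. -/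
noncomputable def Tha (m E : ℕ) (a : ℕ → ℕ → ℤ) : ℤ[X][X] :=
  ∑ j ∈ range m, ∑ e ∈ range E, C (C (2 ^ j * a j e) * Q j) * h e

/-- **PIG.** Pigeonhole.  `v a` is a family of polynomials depending additively on `a`; for every
`l < s` the coefficients below `D` of `v a l` are taken modulo `2 ^ (s - l)`.
Proof.  There are `2 ^ (E ∑_(j<m) (B - j))` vectors `a` (`j < m`, `e < E`, `0 elsewhere`) with
`0 ≤ a j e < 2 ^ (B - j)`, and `2 ^ (D ∑_(l<s) (s - l)) = 2 ^ (D (s (s+1)/2))` classes; two vectors with the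
same classes, take the difference. -/
def PigStmt : Prop :=
  ∀ (m E B s D : ℕ), m ≤ B → D * (s * (s + 1) / 2) < E * ∑ j ∈ range m, (B - j) →
    ∀ v : (ℕ → ℕ → ℤ) → ℕ → ℤ[X], (∀ a a', v (a - a') = v a - v a') →
    ∃ a : ℕ → ℕ → ℤ, (∃ j < m, ∃ e < E, a j e ≠ 0) ∧ (∀ j e, 2 ^ j * |a j e| < 2 ^ B) ∧
      (∀ l < s, ∀ k < D, ((2 ^ (s - l) : ℕ) : ℤ) ∣ (v a l).coeff k)

/-- **QDG.** `Q j` has degree `j` and leading coefficient `1` or `-1`.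
Proof.  Recursion: `Q j = h_j(X, -X)`; more generally `h_j(X, Yp i)` has degree `2 ^ i * j` and leading
coefficient `±1`, because `Yp i` has degree `2 ^ i` and leading coefficient `±1` and `h_(2k)(X, Yp i) =
h_k(X, Yp (i+1))`, `h_(2k+1)(X, Yp i) = Yp i * h_k(X, Yp (i+1))`. -/
def QdgStmt : Prop :=
  ∀ j : ℕ, (Q j).natDegree = j ∧ ((Q j).leadingCoeff = 1 ∨ (Q j).leadingCoeff = -1)

/-- **REM.** The relation modulo `2 ^ s`.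
Proof.  `R = ℤ[X]/(g)`, `M` from CNG, `G` from GRF (for this `M ≥ s`), `τ_i = β ^ (2 ^ (M+i))`.
`ev β (y_i) (h e) ≡ ev β (F^s(τ_i)) (h e) = ev β τ_i (h (2 ^ s e))` modulo `2 ^ s` (`h (2^s e)` is
`h e` composed with `Fit s`), so EXP with `p = Q_j` (degree `j`, QDG), `N = 2 ^ s e` gives `V_(j,e)`, and for
`v a l := (∑_(j,e) a_(je) V_(j,e) l) %ₘ G` (additive in `a`):
`Θ_a(z_i) ≡ ∑_(l<s) (2 β) ^ l (v a l)(τ_i)` modulo `2 ^ s`, because `G(τ_i) ≡ 0 mod 2 ^ s`.  PIG with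
`D = g.natDegree` (the degree of the remainders is `< D`): `2 ^ l (v a l)(τ_i) ≡ 0 mod 2 ^ s`. -/
def RemStmt : Prop :=
  CngStmt → GrfStmt → ExpStmt → PigStmt → QdgStmt →
  ∀ (n : ℕ) (g : ℤ[X]), Cyc n g → ∀ (m E B s : ℕ), m ≤ B →
    g.natDegree * (s * (s + 1) / 2) < E * ∑ j ∈ range m, (B - j) →
    ∃ a : ℕ → ℕ → ℤ, (∃ j < m, ∃ e < E, a j e ≠ 0) ∧ (∀ j e, 2 ^ j * |a j e| < 2 ^ B) ∧
      ∀ i : ℕ, ∃ r : ℤ[X], g ∣ ev (X : ℤ[X]) (Yp i) (Tha m E a) - C (2 ^ s) * r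

/-- **SZE.** Size of `Θ_a`.
Proof.  `∑_(e < 2 ^ η) ‖h_e(b, y_i)‖ ≤ 5 ^ η` by induction on `η` from the recursion (`∑_(e<2^(η+1))
‖h_e(b, y)‖ = (1 + ‖y‖) ∑_(k<2^η) ‖h_k(b, F(y))‖`), the same for `Q_j(b) = h_j(b, -b)`. -/
def SzeStmt : Prop :=
  ∀ b : ℂ, (∀ i, ‖it b (-b) i‖ ≤ 4) → ∀ (m E μ η : ℕ), m ≤ 2 ^ μ → E ≤ 2 ^ η →
    ∀ (a : ℕ → ℕ → ℤ) (K : ℝ), (∀ j e, 2 ^ j * |(a j e : ℝ)| ≤ K) →
      ∀ i : ℕ, ‖ev b (it b (-b) i) (Tha m E a)‖ ≤ K * 5 ^ (μ + η)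

/-- **NRM.** Proof.  The product of `r(z)` over the complex roots `z` of `g` (with multiplicity) is an
integer (a resultant, or a norm) of absolute value `< 1` (`g` has a root: it is monic and irreducible),
so it is `0`, `r(z) = 0` for some root `z`, and `g`, irreducible and monic, is the minimal polynomial of
`z` over `ℤ`. -/
def NrmStmt : Prop :=
  ∀ g r : ℤ[X], g.Monic → Irreducible g → (∀ z : ℂ, aeval z g = 0 → ‖aeval z r‖ < 1) → g ∣ r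

/-- **THN.** `Θ_a` is in the filtration and is not `0`.
Proof.  `Θ_a = ∑_e P_e h_e`, `P_e = ∑_(j<m) 2 ^ j a_(je) Q_j` has degree `< m`; if `a_(je) ≠ 0` for some `j < m`
then `P_e ≠ 0` (largest such `j`, QDG), and then `Θ_a ≠ 0` (largest `e < E` with `P_e ≠ 0`; `h_e` is monic
of degree `e`). -/
def ThnStmt : Prop :=
  QdgStmt → ∀ (m E : ℕ) (a : ℕ → ℕ → ℤ), 0 < m →
    InF E m (Tha m E a) ∧ ((∃ j < m, ∃ e < E, a j e ≠ 0) → Tha m E a ≠ 0)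

/-- **TRU.** The true relation (before dividing by powers of `2`).
Proof.  REM with `m = 2 ℓ + 1`, `s = 4 ℓ`, `B = 3 ℓ`, `E = 2 D`: `s (s+1)/2 = 8 ℓ² + 2 ℓ` and
`2 ∑_(j<m) (B - j) = 2 (2 ℓ + 1)(2 ℓ) = 8 ℓ² + 4 ℓ` (`ℓ > 0` because `5 ^ (μ+η) ≤ 2 ^ ℓ` and `η ≥ 1`).
`Θ_a(z_i) = 2 ^ s r_i` in `ℤ[X]/(g)`; at every root `z` of `g`: `‖Θ_a(z, y_i)‖ ≤ (2 ^ B - 1) 5 ^ (μ+η) < 2 ^ s`
(SZE with `K = 2 ^ B - 1`, BND), so `‖r_i(z)‖ < 1`, NRM: `g ∣ r_i`.  The rest is THN. -/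
def TruStmt : Prop :=
  RemStmt → CngStmt → GrfStmt → ExpStmt → PigStmt → QdgStmt → SzeStmt → NrmStmt → BndStmt → ThnStmt →
  ∀ (n : ℕ) (g : ℤ[X]), Cyc n g → ∀ (μ η ℓ : ℕ), 2 * g.natDegree ≤ 2 ^ η → 2 * ℓ + 1 ≤ 2 ^ μ →
    5 ^ (μ + η) ≤ 2 ^ ℓ →
    ∃ Θ : ℤ[X][X], Θ ≠ 0 ∧ InF (2 * g.natDegree) (2 * ℓ + 1) Θ ∧
      ∀ i : ℕ, g ∣ ev (X : ℤ[X]) (Yp i) Θ

/-- **DIV.** Dividing by the power of `2`.
Proof.  `Θ = ∑ C (P_e) h_e`, not all `P_e` (`e < N`) are `0`; let `2 ^ k` be the exact power of `2`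
dividing all `P_e`, `P_e = 2 ^ k P'_e`.  Modulo `2`, `h_e` is monic of degree `e` in `y`, and some
`P'_e` is not `0` modulo `2`, so `Θ'` is not `0` modulo `2` (look at the largest such `e`). -/
def DivStmt : Prop :=
  ∀ (N d : ℕ) (Θ : ℤ[X][X]), InF N d Θ → Θ ≠ 0 →
    ∃ (k : ℕ) (Θ' : ℤ[X][X]), InF N d Θ' ∧ red2 Θ' ≠ 0 ∧ Θ = 2 ^ k * Θ'

/-- **RDX.** Degrees of `Θ` (`h_e ≡ y ^ e mod 2`, because `F ≡ y ^ 2`). -/
def RdxStmt : Prop :=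
  ∀ (N d : ℕ) (Θ : ℤ[X][X]), InF N d Θ → 0 < N → 0 < d →
    Θ.natDegree < N ∧ dX (red2 Θ) < d

/-- **REL** (the output; assembled by helper30).  The relation.  Proof: TRU, DIV; `g ∣ 2 ^ k * p` implies
`g ∣ p` (`g` is prime and not associated to a constant). -/
def RelStmt : Prop :=
  ∀ (n : ℕ) (g : ℤ[X]), Cyc n g → ∀ (μ η ℓ : ℕ), 2 * g.natDegree ≤ 2 ^ η → 2 * ℓ + 1 ≤ 2 ^ μ →
    5 ^ (μ + η) ≤ 2 ^ ℓ →
    ∃ Θ : ℤ[X][X], red2 Θ ≠ 0 ∧ InF (2 * g.natDegree) (2 * ℓ + 1) Θ ∧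
      ∀ i : ℕ, g ∣ ev (X : ℤ[X]) (Yp i) Θ

/-! ### The distinguished factor -/

/-- **UNA.** A polynomial with more zeros than its degree in `X` modulo `2` has degree `≥ D` in `y`.
Proof.  Let `θ` be a root of `g` in `k = AlgebraicClosure (ZMod 2)`.  For `i ∈ Vn n g ψ`:
`ψ(X, Yp i)` is a multiple of `g`, so `ψ̄(θ, θ ^ (2 ^ i)) = 0` in `k` (`Yp i ↦ θ ^ (2 ^ i)`); raise to the
power `2 ^ (n-i)`: `ψ̄(θ ^ (2 ^ (n-i)), θ) = 0` (the coefficients are in `ZMod 2` and `θ ^ (2 ^ n) = θ`).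
The `θ ^ (2 ^ (n-i))`, `i < n`, are distinct (MOA).  So `ψ̄(X, θ)`, of degree `≤ dX ψ̄` in `X`, has more
roots than its degree: it is `0`.  So every coefficient `c_k(y) ∈ (ZMod 2)[y]` of `X ^ k` in `ψ̄` vanishes
at every root `θ` of `ḡ`; `ḡ` is separable (MOB), so `ḡ ∣ c_k`; some `c_k ≠ 0`, so
`D ≤ natDegree c_k ≤ natDegree (red2 ψ) ≤ natDegree ψ`. -/
def UnaStmt : Prop :=
  MoaStmt → MobStmt →
  ∀ (n : ℕ) (g : ℤ[X]), Cyc n g → ∀ ψ : ℤ[X][X], red2 ψ ≠ 0 →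
    dX (red2 ψ) < (Vn n g ψ).card → g.natDegree ≤ ψ.natDegree

/-- The conclusion of UNA. -/
def Una : Prop :=
  ∀ (n : ℕ) (g : ℤ[X]), Cyc n g → ∀ ψ : ℤ[X][X], red2 ψ ≠ 0 →
    dX (red2 ψ) < (Vn n g ψ).card → g.natDegree ≤ ψ.natDegree

/-- **UNI.** The distinguished factor.
Proof.  `Θ ≠ 0` is a product of irreducibles (times a unit) in the factorial ring `ℤ[X][X]`; `red2` of
every factor is `≠ 0`, and `dX` is additive on products (degree in `X` over a field), so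
`∑ dX(ψ̄) ≤ m - 1`.  Every `i < n` is in `Vn n g ψ` for a factor `ψ` (`g` is prime, `ev` is a ring
homomorphism).  If `card (Vn n g ψ) ≤ dX (red2 ψ)` for all factors then `n ≤ m - 1`: contradiction.  So
some factor `Ψ` has degree `≥ D` by Una; all the others together have degree `< D`, so they have
`card ≤ dX` (Una), in total `≤ m - 1`, and the indices `< n` not killed by them are killed by `Ψ`:
`card (Vn n g Ψ) ≥ n - (m-1)`.  Last part: `card ≥ m > dX` gives degree `≥ D`, and if `ψ` is not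
associated to `Ψ` then `ψ Ψ ∣ Θ` has degree `≥ 2 D`. -/
def UniStmt : Prop :=
  Una →
  ∀ (n : ℕ) (g : ℤ[X]), Cyc n g → ∀ (m : ℕ) (Θ : ℤ[X][X]), Θ.natDegree < 2 * g.natDegree →
    red2 Θ ≠ 0 → dX (red2 Θ) < m → m ≤ n → (∀ i : ℕ, g ∣ ev (X : ℤ[X]) (Yp i) Θ) →
    ∃ Ψ : ℤ[X][X], Irreducible Ψ ∧ Ψ ∣ Θ ∧ g.natDegree ≤ Ψ.natDegree ∧
      n + 1 ≤ m + (Vn n g Ψ).card ∧
      ∀ ψ : ℤ[X][X], Irreducible ψ → ψ ∣ Θ → m ≤ (Vn n g ψ).card → Associated ψ Ψ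

/-! ### Bezout in the basis `h` -/

/-- **HBA.** Multiplication by `h e` costs at most `Nat.size e` in the degree of the coefficients.
Proof.  `InF N d` is stable under sums.  (a) `p ∈ 𝓕(N, d)` implies `p ∘ F ∈ 𝓕(2N, d)` (`h_k ∘ F = h_(2k)`)
and `y (p ∘ F) ∈ 𝓕(2N, d)` (`y h_k ∘ F = h_(2k+1)`).  (b) `y h_k ∈ 𝓕(·, 2)`: `k` even: `h_(k+1)`; `k =
2k'+1`: `y ^ 2 (h_k' ∘ F) = (y h_k') ∘ F - 2 X (y (h_k' ∘ F))` because `y ^ 2 = F - 2 X y`.  So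
`y 𝓕(·, d) ⊆ 𝓕(·, d+1)`.  (c) by induction on `e` (all `k`): `h_e h_k ∈ 𝓕(·, 1 + size e)`: if one of
`e`, `k` is even, `h_e h_k = (1 or y) (h_e' h_k') ∘ F`; if both are odd, it is
`(y h_e' h_k') ∘ F - 2 X y (h_e' h_k') ∘ F`, use (b); `size e = size e' + 1`.  (d) sums. -/
def HbaStmt : Prop :=
  ∀ (e N d : ℕ) (p : ℤ[X][X]), InF N d p → ∃ N' : ℕ, InF N' (d + Nat.size e) (h e * p)

/-- **HBC.** The two kinds of columns.
Proof.  Second part: HBA and `Nat.size e ≤ η`.  First part: `h_k Θ = ∑_(e<N) P_e (h_e h_k)`, HBA with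
`p = h_k ∈ 𝓕(k+1, 1)`, `Nat.size e ≤ η`, and degree `P_e < m`. -/
def HbcStmt : Prop :=
  HbaStmt →
    (∀ (N m η k : ℕ) (Θ : ℤ[X][X]), InF N m Θ → N ≤ 2 ^ η → ∃ N' : ℕ, InF N' (m + η) (h k * Θ)) ∧
    (∀ (N m η k : ℕ) (Θ : ℤ[X][X]), InF N m Θ → k < 2 ^ η → ∃ N' : ℕ, InF N' (m + η) (h k * Θ))

/-- **MIN.** A matrix of polynomials with rank drops.
Proof.  Over the fraction field the columns are independent, so some `r × r` minor `Δ ∈ ℤ[X]` is not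
`0`; its degree is `≤ r w`.  At `z ∈ S` the kernel of `M(z)` has dimension `≥ q`: take an invertible
complex matrix `U` whose first `q` columns are in the kernel; the first `q` columns of `M U` are divisible
by `X - z`, so `(X - z) ^ q ∣ Δ`.  The points of `S` are distinct: `card S * q ≤ degree Δ`. -/
def MinStmt : Prop :=
  ∀ (N r w q : ℕ) (M : Matrix (Fin N) (Fin r) ℤ[X]) (S : Finset ℂ),
    (∀ i j, (M i j).natDegree ≤ w) →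
    (∀ v : Fin r → ℤ[X], M.mulVec v = 0 → v = 0) →
    (∀ z ∈ S, (M.map (aeval z : ℤ[X] → ℂ)).rank + q ≤ r) → S.card * q ≤ r * w

/-- **RNK.** The rank at a point.
Proof.  If `∑_k v_k p_k(z, ·) = 0` in `ℂ[y]` then `∑_i (M(z) v)_i h_i(z, ·) = c₀(z, ·) ∑ v_k p_k(z, ·) =
0`, so `M(z) v = 0` (`h_i(z, ·)` is monic of degree `i`).  So `rank M(z)` is at most the rank of
`v ↦ ∑ v_k p_k(z, ·)`, whose image is in the polynomials of degree `< r` vanishing on `J`, a space of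
dimension `r - q` (it is `∏_(a∈J) (y - a)` times the polynomials of degree `< r - q`). -/
def RnkStmt : Prop :=
  ∀ (N r q : ℕ) (M : Matrix (Fin N) (Fin r) ℤ[X]) (z : ℂ) (p : Fin r → ℤ[X][X]) (c₀ : ℤ[X][X])
    (J : Finset ℂ), J.card = q → q ≤ r → (∀ k, (p k).natDegree < r) →
    (∀ k, ∀ y ∈ J, ev z y (p k) = 0) →
    (∀ k, c₀ * p k = ∑ i : Fin N, C (M i k) * h (i : ℕ)) →
    (M.map (aeval z : ℤ[X] → ℂ)).rank + q ≤ r

/-- **SYL.** Proof.  `A ∣ v * B`, so `A ∣ v` (`IsRelPrime`, factorial ring), so `v = 0` by degree. -/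
def SylStmt : Prop :=
  ∀ A B u v : ℤ[X][X], IsRelPrime A B → A ≠ 0 → B ≠ 0 → u.degree < B.degree →
    v.degree < A.degree → u * A + v * B = 0 → u = 0 ∧ v = 0

/-- **BZM.** The matrix part of the Bezout argument.
Proof.  `a`, `b` = degrees of `A`, `B'`, `r = a + b`.  Columns: `p = h_k A` (`k < b`) and `p = h_k B'`
(`k < a`); `c₀ p` is `h_k Θ`, resp. `h_k B`, in `𝓕(N, m + η)` by HBC (one `N` for all columns; `InF` is
monotone in `N`), so `c₀ p_k = ∑_(i<N) C (M i k) * h i` with degrees `≤ m + η - 1`.  The columns are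
independent over `ℤ[X]`: `M v = 0` gives `c₀ (u A + w B') = 0`, `u = ∑ v_k h_k` of degree `< b`, `w` of
degree `< a`, SYL: `u = w = 0`, and `v = 0` because `h_k` is monic of degree `k`.  RNK at every `z ∈ S`,
MIN. -/
def BzmStmt : Prop :=
  HbaStmt → HbcStmt → MinStmt → RnkStmt → SylStmt →
  ∀ (N m η q : ℕ) (Θ B c₀ A B' : ℤ[X][X]) (S : Finset ℂ) (J : ℂ → Finset ℂ),
    0 < m → N ≤ 2 ^ η → InF N m Θ → (∃ N' : ℕ, InF N' m B) → A.natDegree ≤ 2 ^ η →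
    Θ = c₀ * A → B = c₀ * B' → c₀ ≠ 0 → A ≠ 0 → B' ≠ 0 → IsRelPrime A B' →
    q ≤ A.natDegree + B'.natDegree →
    (∀ z ∈ S, (J z).card = q ∧ ∀ y ∈ J z, ev z y A = 0 ∧ ev z y B' = 0) →
    S.card * q ≤ (A.natDegree + B'.natDegree) * (m + η - 1)

/-- **BEZ.** `Ψ` divides `Θ ∘ F`.
Proof.  Suppose not.  `B = Θ ∘ F ≠ 0`, `B ∈ 𝓕(·, m)`, degree of `B` is `< 4 D`, `B` vanishes at all `z_i`
(`ev_comp_F_Yp`).  Let `Θ = c₀ A`, `B = c₀ B'`, `A`, `B'` relatively prime (gcd in the factorial ring).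
`Ψ ∤ c₀`, so `Ψ ∣ A` and `Ψ c₀ ∣ Θ`, so degree `c₀ < D` and `dX (red2 c₀) ≤ dX (red2 Θ) < m` (RDX,
additivity): Una gives `card (Vn n g c₀) < m`.  Let `a`, `b` be the degrees of `A`, `B'`,
`r = a + b < 6 D`, `q = n - m + 1 ≤ n ≤ D ≤ a ≤ r` (MOB).  BZM with `N = 2 D`, `S` = the complex roots of `g`
(`D` of them: `g` is irreducible), `J z` = `q` of the points `it z (-z) i` (`i < n`, `i ∉ Vn n g c₀`; they
are distinct by `Cyc.ex`), where `c₀(z, ·) ≠ 0` and so `A`, `B'` vanish (`g` is the minimal polynomial of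
`z`).  So `D q ≤ r (m + η - 1) < 6 D (m + η)`, `n - m + 1 < 6 (m + η)`: contradiction. -/
def BezStmt : Prop :=
  Una → MobStmt → MoaStmt → RdxStmt → HbaStmt → HbcStmt → MinStmt → RnkStmt → SylStmt → BzmStmt →
  ∀ (n : ℕ) (g : ℤ[X]), Cyc n g → ∀ (m η : ℕ) (Θ Ψ : ℤ[X][X]), 0 < m → 2 * g.natDegree ≤ 2 ^ η →
    InF (2 * g.natDegree) m Θ → red2 Θ ≠ 0 → (∀ i : ℕ, g ∣ ev (X : ℤ[X]) (Yp i) Θ) →
    Irreducible Ψ → Ψ ∣ Θ → g.natDegree ≤ Ψ.natDegree → 7 * m + 6 * η ≤ n → Ψ ∣ Θ.comp F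

/-! ### Invariance, periodicity -/

/-- **INV.** Proof.  `Ψ` is prime and divides `Θ ∘ F = unit * ∏ ψ ∘ F`, so `Ψ ∣ ψ ∘ F` for an irreducible
factor `ψ` of `Θ`.  For `i ∈ Vn n g Ψ`: `g ∣ ψ(X, Yp (i+1))`; the index `i + 1` modulo `n` is in
`Vn n g ψ` (`g ∣ Yp n - Yp 0`), so `card (Vn n g ψ) ≥ card (Vn n g Ψ) ≥ m`; by uniqueness `ψ` is
associated to `Ψ`. -/
def InvStmt : Prop :=
  ∀ (n : ℕ) (g : ℤ[X]), Cyc n g → ∀ (m : ℕ) (Θ Ψ : ℤ[X][X]), Θ ≠ 0 → Irreducible Ψ →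
    Ψ ∣ Θ.comp F → m ≤ (Vn n g Ψ).card →
    (∀ ψ : ℤ[X][X], Irreducible ψ → ψ ∣ Θ → m ≤ (Vn n g ψ).card → Associated ψ Ψ) →
    Ψ ∣ Ψ.comp F

/-- **PER.** Proof.  Let `K` be an algebraic closure of the fraction field of `ℤ[X]`, `S` the finite
nonempty set of roots of `Ψ` in `K`.  `F` (with `X ∈ K`) maps `S` to `S`, so some `ρ ∈ S` is periodic:
`it X ρ p = ρ`, `p > 0`.  `Ψ` is irreducible over the fraction field and primitive (Gauss), so it is the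
minimal polynomial of `ρ` up to a constant, it divides `Fit p - X` over the fraction field, and by
Gauss in `ℤ[X][X]`. -/
def PerStmt : Prop :=
  ∀ Ψ : ℤ[X][X], Irreducible Ψ → 0 < Ψ.natDegree → Ψ ∣ Ψ.comp F → ∃ p, 0 < p ∧ Ψ ∣ Fit p - X

/-- **EXN.** Exact period.
Proof.  Let `b ∈ ℂ` be a root of `g`, `y_j = it b (-b) j`; `y_0, ..., y_(n-1)` are distinct and
`Ψ(b, y_i) = 0`.  `Ψ ∣ Fit k - X` gives `it b y_i k = y_i`, so `n ∣ k`.  So `Ψ ∤ Fit k - X` for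
`0 < k < n`, and `n ∣ p`.  `Fit n - X` divides `Fit p - X`, with quotient `W`.  If `Ψ ∤ Fit n - X` then
`Ψ ∣ W`, so both factors vanish at `(b, y_i)` and the `y`-derivative of `Fit p - X` vanishes there; but it
is `∏_(j<p) 2 (y_(i+j) + b) - 1 = -1` because `y_0 + b = 0` occurs. -/
def ExnStmt : Prop :=
  ∀ (n : ℕ) (g : ℤ[X]), Cyc n g → ∀ (Ψ : ℤ[X][X]) (i p : ℕ), Irreducible Ψ →
    g ∣ ev (X : ℤ[X]) (Yp i) Ψ → 0 < p → Ψ ∣ Fit p - X →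
    Ψ ∣ Fit n - X ∧ ∀ k, 0 < k → k < n → ¬ Ψ ∣ Fit k - X

/-! ### Conclusion of blocks (1) - (5) -/

/-- **COM.** A component of small degree. -/
def ComStmt : Prop :=
  ∀ (n : ℕ) (g : ℤ[X]), Cyc n g → ∀ (μ η ℓ : ℕ), 2 * g.natDegree ≤ 2 ^ η → 2 * ℓ + 1 ≤ 2 ^ μ →
    5 ^ (μ + η) ≤ 2 ^ ℓ → 14 * ℓ + 7 + 6 * η ≤ n →
    ∃ Ψ : ℤ[X][X], Irreducible Ψ ∧ Ψ.Monic ∧ Ψ ∣ Fit n - X ∧
      (∀ k, 0 < k → k < n → ¬ Ψ ∣ Fit k - X) ∧ Ψ.natDegree < 2 * g.natDegree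

/-- **CMP** (block (6), helper15, statements in `StmtsC.lean`): components are big. -/
def CmpStmt : Prop :=
  ∀ (n m : ℕ) (Ψ : ℤ[X][X]), 0 < n → Irreducible Ψ → Ψ.Monic → Ψ ∣ Fit n - X →
    (∀ k, 0 < k → k < n → ¬ Ψ ∣ Fit k - X) → 2 * Ψ.natDegree ≤ 2 ^ m →
    n ≤ m + n.primeFactors.card

/-- **FIN** (numerics): the theorem.
Proof.  If `n ≤ 40 * 513` nothing is to be proved (the degree is positive).  Otherwise let `η = n / 40 - 1`.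
If `2 D ≤ 2 ^ η`, COM gives `Ψ` (`μ = Nat.log 2 η + 4`, `ℓ = 7 (μ + η) / 3 + 1`), `2 natDegree Ψ ≤ 2 ^ (η+1)`,
so `n ≤ η + 1 + ω(n) ≤ η + 1 + Nat.log 2 n` by CMP: contradiction.  So
`2 ^ η < 2 D ≤ 4 (minpoly ℚ c).natDegree`. -/
def FinStmt : Prop :=
  SetStmt → ComStmt → CmpStmt →
  ∀ (n : ℕ) (c : ℂ), 0 < n → Function.minimalPeriod (fun z : ℂ => z ^ 2 + c) 0 = n →
    2 ^ (n / 40) ≤ 2 ^ 513 * (minpoly ℚ c).natDegree
end Pool.Agent.EDG
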