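import Mathlib

/-!
# Squad EDG (MP_74088a_nt), block Q (helper87): the contraction of quadratic differentials

Two facts on a cycle `x` of the polynomial `f(z) = z ^ 2 + c` with `|∏ 2 x_k| = 1` (note 3600, part (6)).
The index set of the cycle is `ZMod n`.

Proof of both (the same).  Put `a = 0` in `QdiStmt`, `a = 1` in `QdkStmt`, and
`q(z) = ∑ k, (a / (z - x_k) ^ 2 + b_k / (z - x_k))`.  The relations on `b` and `∑ b_k = 0` give
`4 s ^ 2 q(s ^ 2 + c) = q(s) + q(-s)`.  So `|q(w)| dA(w)` on a set `A` is at most the mass of `|q|` on the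
preimage of `A`.  Take for `A` the disc `|z| < R` without the discs of radius `r t_k` around `x_k`,
`t_(k+1) = |2 x_k| t_k` (this closes up because `|∏ 2 x_k| = 1`).  The preimage of `A` misses a fixed
annulus `R' < |z| < R` and is contained in `A` up to annuli around the `x_k` of area `O(r ^ 3)`, where
`|q| = O(r ^ -2)`.  For `r → 0` the mass of `|q|` on the annulus `R' < |z| < R` would be `0`.
-/

set_option autoImplicit false

namespace Pool.Agent.EDG

/-- **QDI** (simple poles).  A cycle with multiplier one: the parameter derivative of the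
periodic point equation does not vanish. -/
def QdiStmt : Prop :=
  ∀ (c : ℂ) (n : ℕ) [NeZero n] (x b : ZMod n → ℂ), Function.Injective x →
    (∀ k, x (k + 1) = x k ^ 2 + c) → (∀ k, b (k + 1) * (2 * x k) = b k) → b 0 ≠ 0 →
    ∑ k, b k ≠ 0

/-- **QDK** (double poles).  A cycle with multiplier `w`, `|w| = 1`: the derivative of the
multiplier with respect to the parameter, `w * ∑ b_k`, does not vanish. -/
def QdkStmt : Prop :=
  ∀ (c : ℂ) (n : ℕ) [NeZero n] (x b : ZMod n → ℂ), Function.Injective x →
    (∀ k, x (k + 1) = x k ^ 2 + c) → ‖∏ k, 2 * x k‖ = 1 →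
    (∀ k, b k - 2 * x k * b (k + 1) = (x k)⁻¹) → ∑ k, b k ≠ 0

/-- **QDZ** (the parameter `1/4`).  Every cycle of `z ^ 2 + 1/4` which does not contain the fixed point
`1/2` has a multiplier of absolute value different from one. -/
def QdzStmt : Prop :=
  ∀ (n : ℕ) [NeZero n] (x : ZMod n → ℂ), Function.Injective x →
    (∀ k, x (k + 1) = x k ^ 2 + 1 / 4) → (∀ k, x k ≠ 1 / 2) → ‖∏ k, 2 * x k‖ ≠ 1

end Pool.Agent.EDG
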