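import Mathlib
import Pool.Agent.EDG.StmtsQ

/-!
# EDG, part (6): every component of the curve of periodic points of exact period `n` is big

Squad EDG (MP_74088a_nt, note 3600 of helper30). This file: statements of block (6), author helper15.
`f_c(x) = x^2 + c`. In `ℂ[X][X]` the INNER variable is the parameter `c` and the OUTER variable is `x`.
Every docstring contains a complete proof. All statements are `Prop`s; deliver
`theorem xxx (hypotheses = rows in uses, in this order) : XxxStmt` in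
`Pool/Agent/HelperNN_EDG/XXX.lean`, namespace `Pool.Agent.EDG.HNN`, import `Pool.Agent.EDG.StmtsC`.
-/

namespace Pool.Agent.EDG.C

open Polynomial

/-- the quadratic map `y ↦ y ^ 2 + c` in a commutative ring -/
def fc {B : Type*} [CommRing B] (c : B) (y : B) : B := y ^ 2 + c

/-- `f_c^n(x)` as an element of `R[c][x]` -/
noncomputable def itc (R : Type*) [CommRing R] : ℕ → R[X][X]
  | 0 => X
  | (n + 1) => (itc R n) ^ 2 + C X

/-- `Φ_n = f_c^n(x) - x` in `ℂ[c][x]` -/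
noncomputable def phi (n : ℕ) : ℂ[X][X] := itc ℂ n - X

/-- evaluation of a polynomial of `ℂ[c][x]` at the point `(c, x)` of a `ℂ`-algebra -/
noncomputable def ev {B : Type*} [CommRing B] [Algebra ℂ B] (c x : B) : ℂ[X][X] →+* B :=
  eval₂RingHom (eval₂RingHom (algebraMap ℂ B) c) x

/-- **Row EVI** (easy). `itc` evaluates to the iterates (induction on `n`, `Function.iterate_succ_apply'`),
it is monic of degree `2 ^ n`; so is `phi n` for `n ≥ 1` (`X` has degree `1 < 2 ^ n`). For `k ∣ n`, `phi k ∣ phi n`: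
with `n = k * N` by induction on `N`: `itc (k * (N+1)) - X = (itc (k N + k) - itc k) + (itc k - X)` and
`itc (m + k) - itc k` is divisible by `itc m - X` because `fc^k` is a polynomial map: by induction on `k`,
`itc (m+k+1) - itc (k+1) = (itc (m+k) - itc k) (itc (m+k) + itc k)`. -/
def EviStmt : Prop :=
  (∀ (B : Type) [CommRing B] [Algebra ℂ B] (c x : B) (n : ℕ), ev c x (itc ℂ n) = (fc c)^[n] x) ∧
  (∀ n, (itc ℂ n).Monic ∧ (itc ℂ n).natDegree = 2 ^ n) ∧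
  (∀ n, 0 < n → (phi n).Monic ∧ (phi n).natDegree = 2 ^ n) ∧
  (∀ k n, k ∣ n → phi k ∣ phi n)

/-- **Row GRL** (easy). Growth of a nonzero polynomial on `c = - s^2`, `s → ∞`.
`‖P(-s^2)‖ / s^(2 deg P)` tends to `‖leadingCoeff‖ > 0` (for instance `Polynomial.tendsto...` /
`Polynomial.isEquivalent_atTop_lead` for `P` over `ℂ`: divide by hand, `P(-s^2) = ∑ a_i (-s^2)^i`).
(a) an upper bound `K s^a` forces `2 deg P ≤ a`; (b) a lower bound `s^a ≤ K ‖P(-s^2)‖` forces `a ≤ 2 deg P`;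
(c) there is always an upper bound of the order `s^(2 deg P)`. -/
def GrlStmt : Prop :=
  ∀ (P : ℂ[X]), P ≠ 0 →
    (∀ (K : ℝ) (a : ℕ), (∀ s : ℝ, 4 ≤ s → ‖P.eval (-(s : ℂ) ^ 2)‖ ≤ K * s ^ a) → 2 * P.natDegree ≤ a) ∧
    (∀ (K : ℝ) (a : ℕ), (∀ s : ℝ, 4 ≤ s → s ^ a ≤ K * ‖P.eval (-(s : ℂ) ^ 2)‖) → a ≤ 2 * P.natDegree) ∧
    (∃ K : ℝ, ∀ s : ℝ, 4 ≤ s → ‖P.eval (-(s : ℂ) ^ 2)‖ ≤ K * s ^ (2 * P.natDegree))

/-- **Row PRX** (easy-medium). Periodic points of `x^2 - s^2`, `s ≥ 4`. Let `f^n x = x`, `n ≥ 1`, `x_j = f^j x`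
(periodic in `j`), `M = max_j ‖x_j‖` (a maximum over `j < n`, valid for all `j`). Then
`‖x_j‖^2 ≤ ‖x_(j+1)‖ + s^2 ≤ M + s^2`, so `M^2 ≤ M + s^2`, `M ≤ s + 1` (else `M^2 - M > (s+1) s > s^2`).
If `Re x_j ≥ 0` then `‖x_j + s‖ ≥ Re x_j + s ≥ s` and `(x_j - s)(x_j + s) = x_(j+1)`, so
`‖x_j - s‖ ≤ (s+1)/s ≤ 5/4`; the same with `+` for `Re x_j < 0`. So `‖x_j‖ ≥ s - 5/4 ≥ s/2`. -/
def PrxStmt : Prop :=
  ∀ (s : ℝ) (n : ℕ) (x : ℂ), 4 ≤ s → 0 < n → (fc (-(s : ℂ) ^ 2))^[n] x = x →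
    ∀ j : ℕ, ‖(fc (-(s : ℂ) ^ 2))^[j] x‖ ≤ s + 1 ∧ s ≤ ‖2 * (fc (-(s : ℂ) ^ 2))^[j] x‖ ∧
      (0 ≤ ((fc (-(s : ℂ) ^ 2))^[j] x).re → ‖(fc (-(s : ℂ) ^ 2))^[j] x - s‖ ≤ 5 / 4) ∧
      (((fc (-(s : ℂ) ^ 2))^[j] x).re < 0 → ‖(fc (-(s : ℂ) ^ 2))^[j] x + s‖ ≤ 5 / 4)

open Classical in
/-- the code of a point: signs of the real parts of the first `n` points of its orbit -/
noncomputable def code (s : ℝ) (n : ℕ) (x : ℂ) : Fin n → Bool :=
  fun j => decide (0 ≤ ((fc (-(s : ℂ) ^ 2))^[(j : ℕ)] x).re)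

open Classical in
/-- length of the common prefix of two codes -/
noncomputable def lcp {n : ℕ} (u v : Fin n → Bool) : ℕ :=
  ((Finset.univ : Finset (Fin n)).filter (fun i => ∀ j, j ≤ i → u j = v j)).card

/-- **Row COD** (medium), uses PRX. Let `x ≠ y` be fixed by `f^n`, `s ≥ 4`, `L = lcp` of their codes (so the codes agree at
all `j < L`). If the signs agree at `j` then by PRX `‖x_j + y_j‖ ≥ 2 s - 5/2 ≥ s` (both within `5/4` of the same
`± s`), so `‖x_(j+1) - y_(j+1)‖ = ‖x_j - y_j‖ ‖x_j + y_j‖ ≥ s ‖x_j - y_j‖`. Hence `s^L ‖x - y‖ ≤ ‖x_L - y_L‖ ≤ 2 (s + 1) ≤ 3 s`.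
If the codes were equal then `L = n` and `s^n ‖x - y‖ ≤ ‖x_n - y_n‖ = ‖x - y‖`, contradiction (`s^n ≥ 4`). -/
def CodStmt : Prop :=
  ∀ (s : ℝ) (n : ℕ) (x y : ℂ), 4 ≤ s → 0 < n → (fc (-(s : ℂ) ^ 2))^[n] x = x → (fc (-(s : ℂ) ^ 2))^[n] y = y →
    x ≠ y → code s n x ≠ code s n y ∧ ‖x - y‖ * s ^ (lcp (code s n x) (code s n y)) ≤ 3 * s

/-- **Row PRE** (medium, pure combinatorics). `a = |A| ≤ 2^m`. For `i < n` let `N_i` be the number of ordered pairs `(u,v)` of `A`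
(`u = v` allowed) with `u j = v j` for all `j ≤ i`. The restriction to `{0..i}` has at most `2^(i+1)` values, so by Cauchy-Schwarz
(`Finset.card_mul_...`, `inner_mul_le_norm_mul_norm`, or `sq_sum_le_card_mul_sum_sq`) `2^(i+1) N_i ≥ a^2`.
`sum over offDiag of lcp = ∑_(i<n) (N_i - a)`, each term is `≥ 0`. Let `M = min m n`; if `n ≤ m` then also `a ≤ 2^n = 2^M`.
So `∑ offDiag (1 - lcp) = a (a-1) - ∑_(i<n) (N_i - a) ≤ a(a-1) - ∑_(i<M) (a^2 / 2^(i+1) - a) = a^2 / 2^M - a + M a ≤ M a ≤ m a`. -/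
def PreStmt : Prop :=
  ∀ (n m : ℕ) (A : Finset (Fin n → Bool)), A.card ≤ 2 ^ m →
    (∑ p ∈ A.offDiag, (1 - (lcp p.1 p.2 : ℤ))) ≤ (m : ℤ) * A.card

/-- **Row DIS** (STRONG), uses EVI PRX COD PRE. The discriminant count. Put `c = - s^2`, `e = deg R`, `R_c, C_c` the polynomials over
`ℂ` (`map (evalRingHom c)`; `R_c` is monic of degree `e`, `C_c` is monic because `phi n` and `R` are). `Φ_c = R_c C_c` has the derivative
`Φ_c'(x) = ∏_(j<n) 2 x_j - 1` at every root `x` (chain rule), of norm `≥ s^n - 1 ≥ s^n / 2` by PRX, so the roots of `Φ_c` are simple and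
`R_c` has `e` distinct roots `A`. Product over `A`: `∏ Φ_c'(x) = ∏ R_c'(x) C_c(x)`, so
`(s^n/2)^e ≤ ∏_(x ∈ A) ‖R_c'(x)‖ * ‖resultant R_c C_c‖`, `∏_(x∈A) ‖R_c'(x)‖ = ∏_(x ≠ y in A) ‖x - y‖ ≤ ∏ 3 s^(1 - lcp) ≤ 3^(e(e-1)) s^(m e)`
by COD and PRE (the codes of the points of `A` are distinct; `s ≥ 1`), and `(resultant R C).eval c = resultant R_c C_c`
(`resultant_map_map`, degrees do not drop as `R`, `C` are monic), `= ∏_(x ∈ A) C_c(x)` (`resultant_eq_prod_eval`). -/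
def DisStmt : Prop :=
  ∀ (n m : ℕ) (R Cf : ℂ[X][X]), 0 < n → R.Monic → R * Cf = phi n → R.natDegree ≤ 2 ^ m →
    ∀ s : ℝ, 4 ≤ s → (s ^ n / 2) ^ R.natDegree ≤
      3 ^ (R.natDegree ^ 2) * s ^ (m * R.natDegree) * ‖(resultant R Cf).eval (-(s : ℂ) ^ 2)‖

/-- **Row LOW** (medium), uses EVI GRL PRX. For `c = - s^2`, `(resultant R (phi k)).eval c = ∏_(x root of R_c) (f^k x - x)` (with multiplicity,
`resultant_map_map`, `resultant_eq_prod_eval`; `R`, `phi k` monic), every such root satisfies `f^n x = x`, so each factor has norm `≤ 2 (s+1) ≤ 3 s` and the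
product has norm `≤ 3^e s^e`. Now GRL (a). -/
def LowStmt : Prop :=
  ∀ (n k : ℕ) (R : ℂ[X][X]), 0 < n → 0 < k → R.Monic → R ∣ phi n → resultant R (phi k) ≠ 0 →
    2 * (resultant R (phi k)).natDegree ≤ R.natDegree

/-- **Row FAC** (medium), uses EVI. `ℂ[c][x]` is a unique factorization domain. Let `P = ∏_(p | n) phi (n/p)`, `L` a gcd of `Cf` and `P`
(it divides a monic polynomial, so its leading coefficient is a unit: normalize it to be monic), `Cf = Q * L`. Let `k ∣ n`, `k < n`: there is a prime `p` with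
`k ∣ n/p`, so `phi k ∣ phi (n/p) ∣ P` (EVI). `phi k` is relatively prime to `R` (a common irreducible factor has positive degree in `x` since it divides a monic
polynomial and is not a unit; it would divide `phi (n/p)` and `R`, so the resultant would vanish: `resultant_eq_zero_iff` over the fraction field, or
`resultant_mul_right`, `resultant_self_eq_zero`), it divides `phi n = R * Cf`, so it divides `Cf`, hence `L`. -/
def FacStmt : Prop :=
  ∀ (n : ℕ) (R Cf : ℂ[X][X]), 0 < n → R.Monic → R * Cf = phi n →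
    (∀ p ∈ n.primeFactors, resultant R (phi (n / p)) ≠ 0) →
    ∃ Q L : ℂ[X][X], Cf = Q * L ∧ Q.Monic ∧ L.Monic ∧ L ∣ ∏ p ∈ n.primeFactors, phi (n / p) ∧
      ∀ k, k ∣ n → k < n → phi k ∣ L

/-- **Row DUA** (easy). In `ℂ[t]` put `c = c0 + a t`, `x = x0 + b t`. `ev c x R` has constant coefficient `ev c0 x0 R = 0`
(compose with `t ↦ 0`), so `t ∣ ev c x R`, the same for `Q`, so `t^2` divides the product. -/
def DuaStmt : Prop :=
  ∀ (R Q L : ℂ[X][X]) (c0 x0 a b : ℂ), ev c0 x0 R = 0 → ev c0 x0 Q = 0 →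
    (X : ℂ[X]) ^ 2 ∣ ev (C c0 + C a * X) (C x0 + C b * X) (R * Q * L)

/-- the cofactor `(f^(kN)(x) - x)/(f^k(x) - x)`, see HSU -/
noncomputable def hsum (k N : ℕ) : ℂ[X][X] :=
  ∑ i ∈ Finset.range N, ∏ l ∈ Finset.range i, ∏ j ∈ Finset.range k, (itc ℂ (k * (l + 1) + j) + itc ℂ (k * l + j))

/-- **Row HSU** (easy). `itc (a+1) - itc (b+1) = (itc a - itc b)(itc a + itc b)`, so
`itc (k (l+2)) - itc (k (l+1)) = (itc (k(l+1)) - itc (k l)) ∏_(j<k) (itc (k(l+1)+j) + itc (k l + j))`, so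
`itc (k(i+1)) - itc (k i) = (itc k - X) ∏_(l<i) ∏_(j<k) (...)`; sum over `i < N` (telescoping). -/
def HsuStmt : Prop := ∀ k N : ℕ, phi (k * N) = phi k * hsum k N

/-- **Row CYI** (medium), hypothesis: the analytic lemma `QdiStmt` of `StmtsQ.lean`. Exact period `n`. Put `x_j = f^j x0`.
With `a = 0, b = 1` the condition says `∏_(j<n) 2 x_j = 1` (the coefficient of `t` in `f^j(x0 + t)` is `∏_(i<j) 2 x_i`).
With `a = 1, b = 0` it says `x'_n = 0` where `x'_0 = 0`, `x'_(j+1) = 2 x_j x'_j + 1`, i.e. `∑_(j=1)^n ∏_(i=j)^(n-1) 2 x_i = 0`.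
`b_j := ∏_(i=j)^(n-1) 2 x_i` for `0 ≤ j < n`, extended to `ZMod n` (`b_n = 1 = b_0`): `b_(j+1) * (2 x_j) = b_j`, `b_0 = 1 ≠ 0`, `∑ b_j = 0`. The `x_j`
(`j ∈ ZMod n`) are distinct. Contradiction to `QdiStmt`. -/
def CyiStmt : Prop :=
  ∀ (c0 x0 : ℂ) (n : ℕ), 0 < n → (fc c0)^[n] x0 = x0 → (∀ j, 0 < j → j < n → (fc c0)^[j] x0 ≠ x0) →
    (∀ a b : ℂ, (X : ℂ[X]) ^ 2 ∣ (fc (C c0 + C a * X))^[n] (C x0 + C b * X) - (C x0 + C b * X)) → False

/-- **Row CYK** (medium), uses EVI, hypothesis: the analytic lemma `QdkStmt` of `StmtsQ.lean`. Exact period `k`, multiplier `w = ∏_(j<k) 2 x_j`.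
`a = b = 0`: all factors are `2 x_j`, so `∑_(i<N) w^i = 0` (`N ≥ 1`), hence `w ≠ 1`, `w^N = 1`, `‖w‖ = 1` and all `x_j ≠ 0`. Choose `x'_0` with
`x'_k = x'_0` for the recursion `x'_(j+1) = 2 x_j x'_j + 1` (`x'_k = w x'_0 + S`, `w ≠ 1`), `a = 1`, `b = x'_0`: modulo `t^2` one has
`f^j(x) = x_j + x'_j t` with `x_j, x'_j` of period `k` in `j`, so `ev (hsum k N) = ∑_(i<N) W^i` mod `t^2`, `W = ∏_(j<k) 2 (x_j + x'_j t) = w + w' t`,
`w' = w ∑ x'_j / x_j`. The coefficient of `t` is `w' ∑_(i<N) i w^(i-1) = w' N w^(N-1) / (w - 1)` (`(w-1) ∑ i w^(i-1) = N w^(N-1)` when `∑ w^i = 0`; for `N = 1` the first condition `1 = 0` is already false), so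
`∑_(j<k) x'_j / x_j = 0`. Let `b_j` (`j ∈ ZMod k`) be the solution of `b_j - 2 x_j b_(j+1) = 1 / x_j` (exists as `w ≠ 1`). Then
`∑ x'_j / x_j = ∑ x'_j b_j - ∑ 2 x_j x'_j b_(j+1) = ∑ x'_j b_j - ∑ (x'_(j+1) - 1) b_(j+1) = ∑ b_j`. So `∑ b_j = 0`: contradiction to `QdkStmt`. -/
def CykStmt : Prop :=
  ∀ (c0 x0 : ℂ) (k N : ℕ), 0 < k → 0 < N → (fc c0)^[k] x0 = x0 → (∀ j, 0 < j → j < k → (fc c0)^[j] x0 ≠ x0) →
    (∀ a b : ℂ, (X : ℂ[X]) ^ 2 ∣ ev (C c0 + C a * X) (C x0 + C b * X) (hsum k N)) → False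

/-- **Row NCZ** (medium), uses EVI DUA HSU CYI CYK. `R` and `Q` have no common zero `(c0, x0)`. At a common zero `f^n x0 = x0`; let `k ∣ n` be the exact period.
`k = n`: DUA gives `t^2 ∣ ev (phi n)`, i.e. the hypothesis of CYI (EVI with `B = ℂ[X]`). `k < n`: `L = phi k * L'`, `n = k N`, `R Q L' phi k = phi n = phi k * hsum k N`
(HSU), so `R Q L' = hsum k N` (`phi k ≠ 0`), DUA gives `t^2 ∣ ev (hsum k N)`, contradiction to CYK. -/
def NczStmt : Prop :=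
  ∀ (n : ℕ) (R Q L : ℂ[X][X]), 0 < n → R * Q * L = phi n → (∀ k, k ∣ n → k < n → phi k ∣ L) →
    ∀ c0 x0 : ℂ, ev c0 x0 R = 0 → ev c0 x0 Q ≠ 0

/-- **Row RCN** (easy). `(resultant R Q).eval c = resultant R_c Q_c` (`resultant_map_map`, monic) which vanishes only if `R_c, Q_c` have a common root
(`resultant_eq_zero_iff`, algebraically closed). So `resultant R Q` has no root in `ℂ`, it is constant, and not zero. -/
def RcnStmt : Prop :=
  ∀ (R Q : ℂ[X][X]), R.Monic → Q.Monic → (∀ c0 x0 : ℂ, ev c0 x0 R = 0 → ev c0 x0 Q ≠ 0) →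
    resultant R Q ≠ 0 ∧ (resultant R Q).natDegree = 0

/-- **Row BIG** (medium), uses EVI GRL DIS LOW FAC NCZ RCN. THE MAIN STATEMENT OF PART (6). `e = deg R ≥ 1`, `Cf` the cofactor, `Cf = Q L` (FAC),
`res R Cf = res R Q * res R L` (`resultant_mul_right`), the first factor is a nonzero constant (NCZ, RCN). `L * M = ∏ phi (n/p)`, so
`res R L * res R M = ∏ res R (phi (n/p)) ≠ 0` (`resultant_prod_right`), `2 deg (res R L) ≤ ∑_p 2 deg res R (phi (n/p)) ≤ ω(n) e` (LOW). By DIS and GRL (c) for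
`P = res R Cf ≠ 0`: `s^(n e) ≤ K s^(m e + 2 deg P) ≤ K s^(m e + ω(n) e)` for all `s ≥ 4`, so `n e ≤ m e + ω(n) e`. -/
def BigStmt : Prop :=
  ∀ (n m : ℕ) (R : ℂ[X][X]), 0 < n → R.Monic → R ∣ phi n → 0 < R.natDegree →
    (∀ p ∈ n.primeFactors, resultant R (phi (n / p)) ≠ 0) → R.natDegree ≤ 2 ^ m →
    n ≤ m + n.primeFactors.card

/-- `Φ_n` in the fixed point parameter `α`, `c = α - α^2` -/
noncomputable def phiA (n : ℕ) : ℂ[X][X] := (phi n).map (compRingHom (X - X ^ 2))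

/-- **Row CPL** (medium, algebra), uses EVI. From the `α`-plane to the `c`-plane. Write `φ = compRingHom (X - X ^ 2) : ℂ[X] →+* ℂ[X]` (injective: `natDegree_comp`), `φ₂ = mapRingHom φ`, and
`σ₂ = mapRingHom (compRingHom (1 - X))` on `ℂ[X][X]` (`σ : α ↦ 1 - α` on the coefficients, an involution).
INVARIANTS. If `p : ℂ[X]` has `p.comp (1 - X) = p` then `p = φ q` for some `q` (strong induction on `natDegree p`: `p - C (p.eval 0)` vanishes at `0` and at `1`, so it is `(X - X^2) * p1`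
with `p1` invariant, `natDegree p1 < natDegree p`). Coefficientwise: if `σ₂ S = S` then `S = φ₂ S0` (`Polynomial.lifts`, or define `S0` by its coefficients); if `S` is monic then so is `S0`, of the same degree.
PROOF. Let `τ` be an irreducible factor of `R1` in the unique factorization domain `ℂ[X][X]`, monic (its leading coefficient divides that of `R1`, so it is a unit: multiply by `C` of the inverse); `natDegree τ > 0`
(otherwise `τ = 1`). `τ` is prime. `σ₂ τ` is monic irreducible too, and `σ₂ (phiA n) = phiA n`, so `σ₂ τ ∣ phiA n`. If `σ₂ τ = τ` put `S = τ`, otherwise `τ`, `σ₂ τ` are not associated (both monic), so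
`S = τ * σ₂ τ` divides `phiA n`. `S` is invariant: `S = φ₂ R`, and `R ∣ phi n` (`Polynomial.map_dvd_map`). `natDegree R = natDegree S ≤ 2 natDegree τ ≤ 2 natDegree R1`.
RESULTANTS. Let `k = n / p`. `resultant τ (phiA k) ≠ 0` because `R1 = τ * R2` and `resultant_mul_left`. `resultant (σ₂ τ) (phiA k) = σ (resultant τ (phiA k)) ≠ 0` (`resultant_map_map`, `σ` injective), so
`φ (resultant R (phi k)) = resultant S (phiA k) ≠ 0` (`resultant_mul_left`). -/
def CplStmt : Prop :=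
  ∀ (n : ℕ) (R1 : ℂ[X][X]), 0 < n → R1.Monic → R1 ∣ phiA n → 0 < R1.natDegree →
    (∀ p ∈ n.primeFactors, resultant R1 (phiA (n / p)) ≠ 0) →
    ∃ R : ℂ[X][X], R.Monic ∧ R ∣ phi n ∧ 0 < R.natDegree ∧ R.natDegree ≤ 2 * R1.natDegree ∧
      ∀ p ∈ n.primeFactors, resultant R (phi (n / p)) ≠ 0

/-- **Row BGA** (easy), uses BIG CPL. The form used by blocks (1)-(5): a monic divisor of `Φ_n` over the `α`-line which is prime to the lower periods has
degree `e1` with `2 e1 ≤ 2^m → n ≤ m + ω(n)`. -/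
def BgaStmt : Prop :=
  ∀ (n m : ℕ) (R1 : ℂ[X][X]), 0 < n → R1.Monic → R1 ∣ phiA n → 0 < R1.natDegree →
    (∀ p ∈ n.primeFactors, resultant R1 (phiA (n / p)) ≠ 0) → 2 * R1.natDegree ≤ 2 ^ m →
    n ≤ m + n.primeFactors.card

end Pool.Agent.EDG.C
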